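import Pool.Agent.Lib_norine.Main

set_option autoImplicit false
set_option linter.unusedSectionVars false

/-!
Two labellings `a`, `b` of the vertices of the cube such that along every edge one of them does
not change, and such that the labels of the antipode of a vertex are determined by the labels of
the vertex: then there are vertices `u`, `w` with `a u = a w` and `b w = b uᶜ`.
-/

namespace Pool.Agent.FsSym

open Finset Pool.Agent.Norine

section general

variable {L : Type} [Fintype L] [DecidableEq L]

/-- change of labels by an involution -/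
def swj (j : L → L) : (Finset L → ZMod 2) →ₗ[ZMod 2] (Finset L → ZMod 2) where
  toFun f := fun S => f (S.image j)
  map_add' f g := by funext S; simp
  map_smul' c f := by funext S; simp

theorem swj_apply (j : L → L) (f : Finset L → ZMod 2) (S : Finset L) :
    swj j f S = f (S.image j) := rfl

variable {j : L → L}

theorem mem_image_inv (hj : ∀ s, j (j s) = s) (s : L) (S : Finset L) :
    s ∈ S.image j ↔ j s ∈ S := by
  rw [Finset.mem_image]
  constructor
  · rintro ⟨t, ht, rfl⟩; rw [hj]; exact ht
  · intro h; exact ⟨j s, h, hj s⟩

theorem image_image_inv (hj : ∀ s, j (j s) = s) (S : Finset L) : (S.image j).image j = S := by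
  ext s
  rw [mem_image_inv hj, mem_image_inv hj, hj]

theorem erase_image_inv (hj : ∀ s, j (j s) = s) (s : L) (S : Finset L) :
    (S.image j).erase s = (S.erase (j s)).image j := by
  ext t
  rw [Finset.mem_erase, mem_image_inv hj, mem_image_inv hj, Finset.mem_erase]
  constructor
  · rintro ⟨h1, h2⟩
    exact ⟨fun h => h1 (by rw [← hj t, h, hj]), h2⟩
  · rintro ⟨h1, h2⟩
    exact ⟨fun h => h1 (by rw [h]), h2⟩

theorem swj_X (hj : ∀ s, j (j s) = s) (s : L) (f : Finset L → ZMod 2) :
    swj j (X s f) = X (j s) (swj j f) := by
  funext S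
  rw [swj_apply, X_apply, X_apply, swj_apply]
  simp only [mem_image_inv hj, erase_image_inv hj]

theorem swj_one : swj j (one : Finset L → ZMod 2) = one := by
  funext S
  rw [swj_apply]
  unfold one
  simp only [Finset.image_eq_empty]

variable {α : Type} [DecidableEq α] [Fintype α]

theorem swj_G (hj : ∀ s, j (j s) = s) (g : Finset α → L) (n : ℕ) (v D : Finset α)
    (hD : D.card = n) (hv : Disjoint v D) :
    swj j (G g n v D) = G (fun u => j (g uᶜ)) n (v ∪ D)ᶜ D := by
  induction n generalizing v D with
  | zero =>
    have : D = ∅ := Finset.card_eq_zero.mp hD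
    subst this
    rw [G_zero, swj_X hj, swj_one, G_zero]
    simp
  | succ n ih =>
    rw [G_back g n v D hD, swj_X hj, map_sum, G_succ, compl_compl]
    congr 1
    apply Finset.sum_congr rfl
    intro i hi
    rw [ih v (D.erase i) (by rw [Finset.card_erase_of_mem hi, hD]; rfl)
      (hv.mono_right (Finset.erase_subset _ _)), compl_facet v D hv i hi]

theorem swj_F (hj : ∀ s, j (j s) = s) (ga gb : Finset α → L) (n : ℕ) (v D : Finset α)
    (hD : D.card = n) (hv : Disjoint v D) :
    swj j (F ga gb n v D)
      = F (fun u => j (gb uᶜ)) (fun u => j (ga uᶜ)) n (v ∪ D)ᶜ D := by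
  induction n generalizing v D with
  | zero =>
    have : D = ∅ := Finset.card_eq_zero.mp hD
    subst this
    rw [F_back_zero, swj_X hj, G_zero, swj_X hj, swj_one, F_zero, G_zero]
    simp
  | succ n ih =>
    rw [F_back ga gb n v D hD, swj_X hj, map_add, map_sum, swj_G hj ga (n + 1) v D hD hv, F_succ,
      compl_compl]
    congr 2
    apply Finset.sum_congr rfl
    intro i hi
    rw [ih v (D.erase i) (by rw [Finset.card_erase_of_mem hi, hD]; rfl)
      (hv.mono_right (Finset.erase_subset _ _)), compl_facet v D hv i hi]

/-- relabelling by an injective map -/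
theorem X_relabel {L' : Type} [Fintype L'] [DecidableEq L'] (ι : L → L')
    (hι : Function.Injective ι) (s : L) (f : Finset L → ZMod 2) (f' : Finset L' → ZMod 2)
    (h : ∀ S, f' (S.image ι) = f S) (S : Finset L) : X (ι s) f' (S.image ι) = X s f S := by
  rw [X_apply, X_apply]
  have h1 : ι s ∈ S.image ι ↔ s ∈ S := by
    rw [Finset.mem_image]
    exact ⟨fun ⟨t, ht, he⟩ => hι he ▸ ht, fun h => ⟨s, h, rfl⟩⟩
  have h2 : (S.image ι).erase (ι s) = (S.erase s).image ι := (Finset.image_erase hι _ _).symm
  simp only [h1, h2, h]

theorem G_relabel {L' : Type} [Fintype L'] [DecidableEq L'] (ι : L → L')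
    (hι : Function.Injective ι) (g : Finset α → L) (n : ℕ) (v D : Finset α) (S : Finset L) :
    G (fun u => ι (g u)) n v D (S.image ι) = G g n v D S := by
  induction n generalizing v D S with
  | zero =>
    rw [G_zero, G_zero]
    apply X_relabel ι hι
    intro S
    unfold one
    simp only [Finset.image_eq_empty]
  | succ n ih =>
    rw [G_succ, G_succ]
    apply X_relabel ι hι
    intro S
    rw [Finset.sum_apply, Finset.sum_apply]
    exact Finset.sum_congr rfl fun i _ => ih _ _ _

theorem F_relabel {L' : Type} [Fintype L'] [DecidableEq L'] (ι : L → L')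
    (hι : Function.Injective ι) (ga gb : Finset α → L) (n : ℕ) (v D : Finset α) (S : Finset L) :
    F (fun u => ι (ga u)) (fun u => ι (gb u)) n v D (S.image ι) = F ga gb n v D S := by
  induction n generalizing v D S with
  | zero =>
    rw [F_zero, F_zero]
    apply X_relabel ι hι
    intro S
    exact G_relabel ι hι gb 0 v D S
  | succ n ih =>
    rw [F_succ, F_succ]
    apply X_relabel ι hι
    intro S
    rw [Pi.add_apply, Pi.add_apply, Finset.sum_apply, Finset.sum_apply, G_relabel ι hι gb]
    congr 1
    exact Finset.sum_congr rfl fun i _ => ih _ _ _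

/-- size of the support -/
theorem F_card (ga gb : Finset α → L) (n : ℕ) (v D : Finset α) (S : Finset L)
    (h : F ga gb n v D S ≠ 0) : S.card = n + 2 := by
  induction n generalizing v D S with
  | zero =>
    rw [F_zero, X_apply] at h
    by_cases hs : ga v ∈ S
    · rw [if_pos hs] at h
      have h1 := G_card _ _ _ _ _ h
      rw [Finset.card_erase_of_mem hs] at h1
      have := Finset.card_pos.mpr ⟨_, hs⟩
      omega
    · rw [if_neg hs] at h; exact absurd rfl h
  | succ n ih =>
    rw [F_succ, X_apply] at h
    by_cases hs : ga v ∈ S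
    · rw [if_pos hs, Pi.add_apply] at h
      have hp := Finset.card_pos.mpr ⟨_, hs⟩
      by_cases hG : G gb (n + 1) v D (S.erase (ga v)) = 0
      · rw [hG, zero_add, Finset.sum_apply] at h
        obtain ⟨i, _, hi⟩ := Finset.exists_ne_zero_of_sum_ne_zero h
        have h1 := ih _ _ _ hi
        rw [Finset.card_erase_of_mem hs] at h1
        omega
      · have h1 := G_card _ _ _ _ _ hG
        rw [Finset.card_erase_of_mem hs] at h1
        omega
    · rw [if_neg hs] at h; exact absurd rfl h

end general

section sides

variable {m : ℕ} {α : Type} [DecidableEq α] [Fintype α]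

/-- both letters occur -/
theorem F_sides (a b : Finset α → Fin m) (n : ℕ) (v D : Finset α) (S : Finset (Fin m × Bool))
    (h : F (fun v => (a v, true)) (fun v => (b v, false)) n v D S ≠ 0) :
    (∃ x, (x, true) ∈ S) ∧ ∃ y, (y, false) ∈ S := by
  induction n generalizing v D S with
  | zero =>
    rw [F_zero, X_apply] at h
    by_cases hs : (a v, true) ∈ S
    · rw [if_pos hs, G_zero, X_apply] at h
      by_cases hs2 : (b v, false) ∈ S.erase (a v, true)
      · exact ⟨⟨_, hs⟩, ⟨_, (Finset.mem_erase.mp hs2).2⟩⟩
      · rw [if_neg hs2] at h; exact absurd rfl h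
    · rw [if_neg hs] at h; exact absurd rfl h
  | succ n ih =>
    rw [F_succ, X_apply] at h
    by_cases hs : (a v, true) ∈ S
    · rw [if_pos hs, Pi.add_apply] at h
      refine ⟨⟨_, hs⟩, ?_⟩
      by_cases hG : G (fun v => (b v, false)) (n + 1) v D (S.erase (a v, true)) = 0
      · rw [hG, zero_add, Finset.sum_apply] at h
        obtain ⟨i, _, hi⟩ := Finset.exists_ne_zero_of_sum_ne_zero h
        obtain ⟨_, y, hy⟩ := ih _ _ _ hi
        exact ⟨y, (Finset.mem_erase.mp hy).2⟩
      · rw [G_succ, X_apply] at hG
        by_cases hs2 : (b v, false) ∈ S.erase (a v, true)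
        · exact ⟨_, (Finset.mem_erase.mp hs2).2⟩
        · rw [if_neg hs2] at hG; exact absurd rfl hG
    · rw [if_neg hs] at h; exact absurd rfl h

/-- the support lemma for pairs of labels -/
theorem F_pair (a b : Finset α → Fin m)
    (hab : ∀ v i, a (insert i v) = a v ∨ b (insert i v) = b v)
    (n : ℕ) (v D : Finset α) (S : Finset (Fin m × Bool)) (x y : Fin m)
    (hx : (x, true) ∈ S) (hy : (y, false) ∈ S)
    (h : F (fun v => (a v, true)) (fun v => (b v, false)) n v D S ≠ 0) :
    ∃ w, a w = x ∧ b w = y := by
  by_contra hno
  push Not at hno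
  apply h
  -- relabelling
  let ea : Fin m → Fin (2 * m + 1) := fun z =>
    if z = x then ⟨2 * m, by omega⟩ else ⟨z.val, by have := z.isLt; omega⟩
  let eb : Fin m → Fin (2 * m + 1) := fun z =>
    if z = y then ⟨2 * m, by omega⟩ else ⟨m + z.val, by have := z.isLt; omega⟩
  let ι : Fin m × Bool → Fin (2 * m + 1) × Bool := fun s =>
    (if s.2 then ea s.1 else eb s.1, s.2)
  have hea : Function.Injective ea := by
    intro z z' hz
    simp only [ea] at hz
    have h1 := z.isLt
    have h2 := z'.isLt
    split_ifs at hz with h3 h4 h4
    · rw [h3, h4]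
    · have := congrArg Fin.val hz; simp only at this; omega
    · have := congrArg Fin.val hz; simp only at this; omega
    · have := congrArg Fin.val hz; simp only at this; exact Fin.ext this
  have heb : Function.Injective eb := by
    intro z z' hz
    simp only [eb] at hz
    have h1 := z.isLt
    have h2 := z'.isLt
    split_ifs at hz with h3 h4 h4
    · rw [h3, h4]
    · have := congrArg Fin.val hz; simp only at this; omega
    · have := congrArg Fin.val hz; simp only at this; omega
    · have := congrArg Fin.val hz; simp only at this; exact Fin.ext (by omega)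
  have hι : Function.Injective ι := by
    rintro ⟨z, c⟩ ⟨z', c'⟩ hz
    simp only [ι, Prod.mk.injEq] at hz
    obtain ⟨hz1, rfl⟩ := hz
    cases c
    · simp only [Bool.false_eq_true, if_false] at hz1
      rw [heb hz1]
    · simp only [if_true] at hz1
      rw [hea hz1]
  have hne : ∀ w, ea (a w) ≠ eb (b w) := by
    intro w hw
    have h1 := (a w).isLt
    have h2 := (b w).isLt
    simp only [ea, eb] at hw
    split_ifs at hw with h3 h4 h4
    · exact hno w h3 h4
    · have := congrArg Fin.val hw; simp only at this; omega
    · have := congrArg Fin.val hw; simp only at this; omega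
    · have := congrArg Fin.val hw; simp only at this; omega
  have key := F_supp (fun w => ea (a w)) (fun w => eb (b w)) hne
    (fun v i => (hab v i).imp (fun h => congrArg ea h) (fun h => congrArg eb h))
    n v D (S.image ι) ⟨2 * m, by omega⟩
    (Finset.mem_image.mpr ⟨_, hx, by simp [ι, ea]⟩) (Finset.mem_image.mpr ⟨_, hy, by simp [ι, eb]⟩)
  have h2 := F_relabel ι hι (fun v => (a v, true)) (fun v => (b v, false)) n v D S
  simp only [ι, if_true, Bool.false_eq_true, if_false] at h2
  rw [← h2]
  exact key

end sides

end Pool.Agent.FsSym
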