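import Pool.Agent.Lib_fs_sym.Tate

set_option autoImplicit false
set_option linter.unusedSectionVars false

/-!
The labelled theorem.
-/

namespace Pool.Agent.FsSym

open Finset Pool.Agent.Norine

variable {m : ℕ} {α : Type} [DecidableEq α] [Fintype α]

theorem labels_fin (a b : Finset α → Fin m)
    (hab : ∀ v i, a (insert i v) = a v ∨ b (insert i v) = b v)
    (ja jb : Fin m → Fin m) (hja : ∀ x, ja (ja x) = x) (hjb : ∀ x, jb (jb x) = x)
    (ha : ∀ v, a vᶜ = ja (a v)) (hb : ∀ v, b vᶜ = jb (b v)) :
    ∃ u w, a u = a w ∧ b w = b uᶜ := by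
  classical
  by_contra hno
  push Not at hno
  let T : Fin m → Fin m → Prop := fun x y => ∃ w, a w = x ∧ b w = y
  let j : Fin m × Bool → Fin m × Bool := fun s => (if s.2 then ja s.1 else jb s.1, s.2)
  have hj : ∀ s, j (j s) = s := by
    rintro ⟨x, c⟩
    cases c
    · simp [j, hjb]
    · simp [j, hja]
  have hj2 : ∀ s, (j s).2 = s.2 := fun s => rfl
  have hT : ∀ x y, T x y → T (j (x, true)).1 (j (y, false)).1 := by
    rintro x y ⟨w, rfl, rfl⟩
    exact ⟨wᶜ, by simp [j, ha], by simp [j, hb]⟩
  have hfree : ∀ S, good T S → S.image j ≠ S := by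
    intro S hS h
    obtain ⟨x, hx⟩ := hS.1
    obtain ⟨y, hy⟩ := hS.2.1
    obtain ⟨w, hw1, hw2⟩ := hS.2.2 x y hx hy
    have hy2 : (jb y, false) ∈ S := by
      have : j (y, false) ∈ S.image j := Finset.mem_image_of_mem j hy
      rw [h] at this
      simpa [j] using this
    obtain ⟨w', hw3, hw4⟩ := hS.2.2 x (jb y) hx hy2
    apply hno w w' (by rw [hw1, hw3])
    rw [hw4, hb, hw2]
  set ga : Finset α → Fin m × Bool := fun v => (a v, true) with hga
  set gb : Finset α → Fin m × Bool := fun v => (b v, false) with hgb
  have hsupp : ∀ n v D S, F ga gb n v D S ≠ 0 → good T S ∧ S.card = n + 2 := by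
    intro n v D S h
    refine ⟨⟨(F_sides a b n v D S h).1, (F_sides a b n v D S h).2, ?_⟩, F_card _ _ _ _ _ _ h⟩
    intro x y hx hy
    exact F_pair a b hab n v D S x y hx hy h
  have hpa : (fun u : Finset α => j (ga uᶜ)) = ga := by
    funext u
    simp [hga, j, ha, hja]
  have hpb : (fun u : Finset α => j (gb uᶜ)) = gb := by
    funext u
    simp [hgb, j, hb, hjb]
  have hcomm : ∀ n v D, F gb ga n v D = F ga gb n v D := by
    intro n v D
    exact F_comm gb ga (fun v i => (hab v i).symm.imp (fun h => by simp [hgb, h])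
      (fun h => by simp [hga, h])) n v D
  apply no_system (Finset.univ : Finset α) (fun v D => Lk T j D.card (F ga gb D.card v D))
  intro v D _ _ hvD
  have hsw : F ga gb D.card (Finset.univ \ (v ∪ D)) D = swj j (F ga gb D.card v D) := by
    rw [← Finset.compl_eq_univ_sdiff, swj_F hj ga gb D.card v D rfl hvD, hpa, hpb, hcomm]
  rw [hsw]
  rcases Nat.eq_zero_or_pos D.card with h0 | hpos
  · have hD : D = ∅ := Finset.card_eq_zero.mp h0
    subst hD
    rw [Finset.card_empty]
    simp only [Finset.sum_empty, if_true, zero_add]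
    rw [Lk_zero hj hj2 hT hfree _ (fun S h => hsupp 0 v ∅ S h)]
    rw [Finset.sum_eq_single ({(a v, true), (b v, false)} : Finset (Fin m × Bool))]
    · rw [F_zero, G_zero, X_apply, if_pos (by simp [hga]), X_apply, if_pos (by simp [hga, hgb])]
      have : (({(a v, true), (b v, false)} : Finset (Fin m × Bool)).erase (ga v)).erase (gb v)
          = ∅ := by
        ext s
        simp [hga, hgb]
      rw [this]
      simp [one]
    · intro S _ hS
      by_contra h
      apply hS
      have h1 := hsupp 0 v ∅ S h
      rw [F_zero, G_zero, X_apply] at h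
      by_cases hs : ga v ∈ S
      · rw [if_pos hs, X_apply] at h
        by_cases hs2 : gb v ∈ S.erase (ga v)
        · symm
          apply Finset.eq_of_subset_of_card_le
          · intro s hs'
            simp only [Finset.mem_insert, Finset.mem_singleton] at hs'
            rcases hs' with rfl | rfl
            · exact hs
            · exact (Finset.mem_erase.mp hs2).2
          · rw [h1.2]
            have : ((a v, true) : Fin m × Bool) ≠ (b v, false) := by simp
            rw [Finset.card_pair this]
        · rw [if_neg hs2] at h; exact absurd rfl h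
      · rw [if_neg hs] at h; exact absurd rfl h
    · intro h; exact absurd (Finset.mem_univ _) h
  · obtain ⟨n, hn⟩ : ∃ n, D.card = n + 1 := ⟨D.card - 1, by omega⟩
    have hne' : D ≠ ∅ := by
      rintro rfl
      simp at hn
    rw [if_neg hne', add_zero, hn, ← Lk_B hj hj2 hT hfree n _ (fun S h => hsupp (n + 1) v D S h),
      B_F ga gb n v D hn hvD, map_add, map_add,
      Lk_pure n _ true (fun S h => G_supp ga (fun s => s.2 = true) (fun _ => rfl) _ _ _ S h),
      Lk_pure n _ false (fun S h => G_supp gb (fun s => s.2 = false) (fun _ => rfl) _ _ _ S h),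
      zero_add, zero_add, map_sum]
    apply Finset.sum_congr rfl
    intro i hi
    have : (D.erase i).card = n := by rw [Finset.card_erase_of_mem hi, hn]; rfl
    rw [this, map_add]

/-- **The labelled theorem.** Two labellings of the vertices of a cube, one of which does not
change along any edge, and such that the labels of the antipode depend only on the label. -/
theorem labels {Y Z : Type*} (a : Finset α → Y) (b : Finset α → Z)
    (hab : ∀ v i, a (insert i v) = a v ∨ b (insert i v) = b v)
    (ha : ∀ v w, a v = a w → a vᶜ = a wᶜ) (hb : ∀ v w, b v = b w → b vᶜ = b wᶜ) :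
    ∃ u w, a u = a w ∧ b w = b uᶜ := by
  classical
  -- numbering by the vertices themselves
  obtain ⟨N, e⟩ : ∃ N, Nonempty (Finset α ≃ Fin N) := ⟨_, ⟨Fintype.equivFin _⟩⟩
  obtain ⟨e⟩ := e
  -- canonical representatives
  let ca : Finset α → Finset α := fun v => Function.invFun a (a v)
  let cb : Finset α → Finset α := fun v => Function.invFun b (b v)
  have hca : ∀ v, a (ca v) = a v := fun v => Function.invFun_eq ⟨v, rfl⟩
  have hcb : ∀ v, b (cb v) = b v := fun v => Function.invFun_eq ⟨v, rfl⟩
  have hca2 : ∀ v w, ca v = ca w ↔ a v = a w := fun v w =>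
    ⟨fun h => by rw [← hca v, h, hca], fun h => by simp only [ca, h]⟩
  have hcb2 : ∀ v w, cb v = cb w ↔ b v = b w := fun v w =>
    ⟨fun h => by rw [← hcb v, h, hcb], fun h => by simp only [cb, h]⟩
  -- the involutions on the labels
  let ja : Fin N → Fin N := fun x =>
    if ca (e.symm x) = e.symm x then e (ca (e.symm x)ᶜ) else x
  let jb : Fin N → Fin N := fun x =>
    if cb (e.symm x) = e.symm x then e (cb (e.symm x)ᶜ) else x
  have hcc : ∀ v, ca (ca v) = ca v := fun v => (hca2 _ _).mpr (hca v)
  have hcc' : ∀ v, cb (cb v) = cb v := fun v => (hcb2 _ _).mpr (hcb v)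
  obtain ⟨u, w, h1, h2⟩ := labels_fin (fun v => e (ca v)) (fun v => e (cb v))
    (fun v i => (hab v i).imp (fun h => congrArg e ((hca2 _ _).mpr h))
      (fun h => congrArg e ((hcb2 _ _).mpr h))) ja jb
    (by
      intro x
      simp only [ja]
      by_cases h : ca (e.symm x) = e.symm x
      · rw [if_pos h, Equiv.symm_apply_apply, if_pos (hcc _)]
        apply e.symm.injective
        rw [Equiv.symm_apply_apply]
        have h3 : a (ca (e.symm x)ᶜ)ᶜ = a (e.symm x) := by
          rw [ha _ _ (hca (e.symm x)ᶜ), compl_compl]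
        rw [(hca2 _ _).mpr h3, h]
      · rw [if_neg h, if_neg h])
    (by
      intro x
      simp only [jb]
      by_cases h : cb (e.symm x) = e.symm x
      · rw [if_pos h, Equiv.symm_apply_apply, if_pos (hcc' _)]
        apply e.symm.injective
        rw [Equiv.symm_apply_apply]
        have h3 : b (cb (e.symm x)ᶜ)ᶜ = b (e.symm x) := by
          rw [hb _ _ (hcb (e.symm x)ᶜ), compl_compl]
        rw [(hcb2 _ _).mpr h3, h]
      · rw [if_neg h, if_neg h])
    (by
      intro v
      simp only [ja]
      rw [Equiv.symm_apply_apply, if_pos (hcc _)]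
      exact congrArg e ((hca2 _ _).mpr (ha _ _ (hca v)).symm))
    (by
      intro v
      simp only [jb]
      rw [Equiv.symm_apply_apply, if_pos (hcc' _)]
      exact congrArg e ((hcb2 _ _).mpr (hb _ _ (hcb v)).symm))
  exact ⟨u, w, (hca2 _ _).mp (e.injective h1), (hcb2 _ _).mp (e.injective h2)⟩

end Pool.Agent.FsSym
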