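import Pool.Agent.Lib_fs_sym.Core

set_option autoImplicit false
set_option linter.unusedSectionVars false

/-!
The functionals on a free complex of complete bipartite cells, and the labelled theorem.
-/

namespace Pool.Agent.FsSym

open Finset Pool.Agent.Norine

section functional

variable {m : ℕ}

/-- cells: sets of labels with labels of both kinds, all pairs being related -/
def good (T : Fin m → Fin m → Prop) (S : Finset (Fin m × Bool)) : Prop :=
  (∃ x, (x, true) ∈ S) ∧ (∃ y, (y, false) ∈ S) ∧
    ∀ x y, (x, true) ∈ S → (y, false) ∈ S → T x y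

/-- a numbering of all sets of labels -/
noncomputable def ord (S : Finset (Fin m × Bool)) : ℕ := (Fintype.equivFin _ S : ℕ)

theorem ord_inj {S S' : Finset (Fin m × Bool)} (h : ord S = ord S') : S = S' :=
  (Fintype.equivFin _).injective (Fin.val_injective h)

open Classical in
/-- the functionals -/
noncomputable def P (T : Fin m → Fin m → Prop) (j : Fin m × Bool → Fin m × Bool) :
    ℕ → Finset (Fin m × Bool) → ZMod 2
  | 0, S => if ord S < ord (S.image j) then 1 else 0
  | k + 1, S => if ord S < ord (S.image j) then
      ∑ s ∈ S, (if good T (S.erase s) then P T j k (S.erase s) else 0) else 0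

variable {T : Fin m → Fin m → Prop} {j : Fin m × Bool → Fin m × Bool}

theorem good_image (hj : ∀ s, j (j s) = s) (hj2 : ∀ s, (j s).2 = s.2)
    (hT : ∀ x y, T x y → T (j (x, true)).1 (j (y, false)).1) {S : Finset (Fin m × Bool)}
    (hS : good T S) : good T (S.image j) := by
  have ht : ∀ x, j (x, true) = ((j (x, true)).1, true) := fun x => Prod.ext rfl (hj2 (x, true))
  have hf : ∀ y, j (y, false) = ((j (y, false)).1, false) := fun y => Prod.ext rfl (hj2 (y, false))
  refine ⟨?_, ?_, ?_⟩
  · obtain ⟨x, hx⟩ := hS.1
    exact ⟨_, ht x ▸ Finset.mem_image_of_mem j hx⟩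
  · obtain ⟨y, hy⟩ := hS.2.1
    exact ⟨_, hf y ▸ Finset.mem_image_of_mem j hy⟩
  · intro x y hx hy
    rw [mem_image_inv hj, ht] at hx
    rw [mem_image_inv hj, hf] at hy
    have := hT _ _ (hS.2.2 _ _ hx hy)
    rw [← ht, ← hf, hj, hj] at this
    exact this

theorem good_image_iff (hj : ∀ s, j (j s) = s) (hj2 : ∀ s, (j s).2 = s.2)
    (hT : ∀ x y, T x y → T (j (x, true)).1 (j (y, false)).1) (S : Finset (Fin m × Bool)) :
    good T (S.image j) ↔ good T S :=
  ⟨fun h => by
    have := good_image hj hj2 hT h
    rwa [image_image_inv hj] at this, good_image hj hj2 hT⟩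

theorem good_of_subset {S S' : Finset (Fin m × Bool)} (h : S' ⊆ S) (hS : good T S)
    (hx : ∃ x, (x, true) ∈ S') (hy : ∃ y, (y, false) ∈ S') : good T S' :=
  ⟨hx, hy, fun x y h1 h2 => hS.2.2 x y (h h1) (h h2)⟩

open Classical in
/-- the number of good sets obtained from a good set of size 3 is even -/
theorem count_three (S : Finset (Fin m × Bool)) (hS : good T S) (hc : S.card = 3) :
    ∑ s ∈ S, (if good T (S.erase s) then (1 : ZMod 2) else 0) = 0 := by
  -- split into the two kinds
  set A := S.filter (fun s => s.2 = true) with hA
  set B := S.filter (fun s => s.2 = false) with hB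
  have hcard : A.card + B.card = 3 := by
    have h1 := Finset.card_filter_add_card_filter_not (s := S) (fun s : Fin m × Bool => s.2 = true)
    have h2 : S.filter (fun s => ¬ s.2 = true) = B := by
      rw [hB]; apply Finset.filter_congr; intro s _; cases s.2 <;> simp
    rw [h2, ← hA, hc] at h1
    exact h1
  have hApos : 1 ≤ A.card := by
    obtain ⟨x, hx⟩ := hS.1
    exact Finset.card_pos.mpr ⟨(x, true), by simp [hA, hx]⟩
  have hBpos : 1 ≤ B.card := by
    obtain ⟨y, hy⟩ := hS.2.1
    exact Finset.card_pos.mpr ⟨(y, false), by simp [hB, hy]⟩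
  have hsplit : ∑ s ∈ S, (if good T (S.erase s) then (1 : ZMod 2) else 0)
      = ∑ s ∈ A, (if good T (S.erase s) then (1 : ZMod 2) else 0)
        + ∑ s ∈ B, (if good T (S.erase s) then (1 : ZMod 2) else 0) := by
    have h2 : S.filter (fun s => ¬ s.2 = true) = B := by
      rw [hB]; apply Finset.filter_congr; intro s _; cases s.2 <;> simp
    rw [← Finset.sum_filter_add_sum_filter_not S (fun s => s.2 = true), h2]
  have hgA : ∀ s ∈ A, (good T (S.erase s) ↔ 2 ≤ A.card) := by
    intro s hs
    have hs' := Finset.mem_filter.mp hs
    constructor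
    · rintro ⟨⟨x, hx⟩, _, _⟩
      have hx' := Finset.mem_erase.mp hx
      have hmem : (x, true) ∈ A := by simp [hA, hx'.2]
      have : 1 < A.card := Finset.one_lt_card.mpr ⟨_, hmem, _, hs, hx'.1⟩
      omega
    · intro h2
      obtain ⟨t, ht, hne⟩ := Finset.exists_mem_ne (by omega : 1 < A.card) s
      have ht' := Finset.mem_filter.mp ht
      refine good_of_subset (Finset.erase_subset _ _) hS ?_ ?_
      · refine ⟨t.1, ?_⟩
        have : t = (t.1, true) := Prod.ext rfl ht'.2
        rw [← this]
        exact Finset.mem_erase.mpr ⟨hne, ht'.1⟩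
      · obtain ⟨y, hy⟩ := hS.2.1
        refine ⟨y, Finset.mem_erase.mpr ⟨?_, hy⟩⟩
        intro h
        rw [← h] at hs'
        simp at hs'
  have hgB : ∀ s ∈ B, (good T (S.erase s) ↔ 2 ≤ B.card) := by
    intro s hs
    have hs' := Finset.mem_filter.mp hs
    constructor
    · rintro ⟨_, ⟨y, hy⟩, _⟩
      have hy' := Finset.mem_erase.mp hy
      have hmem : (y, false) ∈ B := by simp [hB, hy'.2]
      have : 1 < B.card := Finset.one_lt_card.mpr ⟨_, hmem, _, hs, hy'.1⟩
      omega
    · intro h2
      obtain ⟨t, ht, hne⟩ := Finset.exists_mem_ne (by omega : 1 < B.card) s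
      have ht' := Finset.mem_filter.mp ht
      refine good_of_subset (Finset.erase_subset _ _) hS ?_ ?_
      · obtain ⟨x, hx⟩ := hS.1
        refine ⟨x, Finset.mem_erase.mpr ⟨?_, hx⟩⟩
        intro h
        rw [← h] at hs'
        simp at hs'
      · refine ⟨t.1, ?_⟩
        have : t = (t.1, false) := Prod.ext rfl ht'.2
        rw [← this]
        exact Finset.mem_erase.mpr ⟨hne, ht'.1⟩
  have eA : ∑ s ∈ A, (if good T (S.erase s) then (1 : ZMod 2) else 0)
      = if 2 ≤ A.card then (A.card : ZMod 2) else 0 := by
    rw [Finset.sum_congr rfl (fun s hs => if_congr (hgA s hs) rfl rfl)]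
    split_ifs <;> simp
  have eB : ∑ s ∈ B, (if good T (S.erase s) then (1 : ZMod 2) else 0)
      = if 2 ≤ B.card then (B.card : ZMod 2) else 0 := by
    rw [Finset.sum_congr rfl (fun s hs => if_congr (hgB s hs) rfl rfl)]
    split_ifs <;> simp
  rw [hsplit, eA, eB]
  have : (A.card = 1 ∧ B.card = 2) ∨ (A.card = 2 ∧ B.card = 1) := by omega
  rcases this with ⟨h1, h2⟩ | ⟨h1, h2⟩
  · rw [h1, h2]; decide
  · rw [h1, h2]; decide

open Classical in
/-- the boundary sum -/
noncomputable def sig (T : Fin m → Fin m → Prop) (j : Fin m × Bool → Fin m × Bool) (k : ℕ)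
    (S : Finset (Fin m × Bool)) : ZMod 2 :=
  ∑ s ∈ S, (if good T (S.erase s) then P T j k (S.erase s) else 0)

/-- one of a set and its image comes first -/
theorem ord_cases (hj : ∀ s, j (j s) = s) {S : Finset (Fin m × Bool)} (hne : S.image j ≠ S)
    (x y : ZMod 2) : (if ord S < ord (S.image j) then x else 0)
      + (if ord (S.image j) < ord ((S.image j).image j) then y else 0)
      = if ord S < ord (S.image j) then x else y := by
  rw [image_image_inv hj]
  have h1 : ord S ≠ ord (S.image j) := fun h => hne (ord_inj h).symm
  rcases Nat.lt_or_gt_of_ne h1 with h | h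
  · rw [if_pos h, if_neg (by omega), if_pos h, add_zero]
  · rw [if_neg (by omega), if_pos h, if_neg (by omega), zero_add]

/-- the defining property of the functionals -/
theorem P_add (hj : ∀ s, j (j s) = s) (hj2 : ∀ s, (j s).2 = s.2)
    (hT : ∀ x y, T x y → T (j (x, true)).1 (j (y, false)).1)
    (hfree : ∀ S, good T S → S.image j ≠ S) (k : ℕ) :
    ∀ S, good T S → S.card = k + 2 →
      P T j k S + P T j k (S.image j) = match k with
        | 0 => 1
        | k + 1 => sig T j k S := by
  classical
  induction k with
  | zero =>
    intro S hS _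
    simp only [P]
    rw [ord_cases hj (hfree S hS)]
    simp
  | succ k ih =>
    intro S hS hc
    simp only [P]
    change (if ord S < ord (S.image j) then sig T j k S else 0)
      + (if ord (S.image j) < ord ((S.image j).image j) then sig T j k (S.image j) else 0)
      = sig T j k S
    rw [ord_cases hj (hfree S hS)]
    -- invariance of the boundary sum
    have hinv : sig T j k (S.image j) = sig T j k S := by
      have e1 : sig T j k (S.image j)
          = ∑ s ∈ S, (if good T (S.erase s) then P T j k ((S.erase s).image j) else 0) := by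
        unfold sig
        rw [Finset.sum_image (fun x _ y _ h => by rw [← hj x, h, hj])]
        apply Finset.sum_congr rfl
        intro s _
        rw [erase_image_inv hj, hj]
        exact if_congr (good_image_iff hj hj2 hT _) rfl rfl
      have e2 : sig T j k (S.image j) + sig T j k S = 0 := by
        rw [e1]
        unfold sig
        rw [← Finset.sum_add_distrib]
        have e3 : ∀ s ∈ S, ((if good T (S.erase s) then P T j k ((S.erase s).image j) else 0)
            + if good T (S.erase s) then P T j k (S.erase s) else 0)
            = if good T (S.erase s) then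
                (P T j k (S.erase s) + P T j k ((S.erase s).image j)) else 0 := by
          intro s _
          split_ifs
          · rw [add_comm]
          · rw [add_zero]
        rw [Finset.sum_congr rfl e3]
        cases k with
        | zero =>
          have e4 : ∀ s ∈ S, (if good T (S.erase s) then
                (P T j 0 (S.erase s) + P T j 0 ((S.erase s).image j)) else 0)
                = if good T (S.erase s) then (1 : ZMod 2) else 0 := by
            intro s hs
            split_ifs with hg
            · have := ih (S.erase s) hg (by rw [Finset.card_erase_of_mem hs, hc])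
              exact this
            · rfl
          rw [Finset.sum_congr rfl e4]
          exact count_three S hS hc
        | succ k =>
          have e4 : ∀ s ∈ S, (if good T (S.erase s) then
                (P T j (k + 1) (S.erase s) + P T j (k + 1) ((S.erase s).image j)) else 0)
                = ∑ t ∈ S.erase s,
                    (if good T ((S.erase s).erase t) then P T j k ((S.erase s).erase t) else 0) := by
            intro s hs
            split_ifs with hg
            · have := ih (S.erase s) hg (by rw [Finset.card_erase_of_mem hs, hc]; rfl)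
              exact this
            · symm
              apply Finset.sum_eq_zero
              intro t _
              rw [if_neg]
              intro hg2
              exact hg (good_of_subset (Finset.erase_subset _ _) hS
                (hg2.1.imp fun x hx => (Finset.mem_erase.mp hx).2)
                (hg2.2.1.imp fun y hy => (Finset.mem_erase.mp hy).2))
          rw [Finset.sum_congr rfl e4]
          apply dsum_zero add_self2
          intro s _ t _ _
          rw [Finset.erase_right_comm]
      have : ∀ x y : ZMod 2, x + y = 0 → x = y := by decide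
      exact this _ _ e2
    rw [hinv]
    simp

open Classical in
/-- evaluation of a functional on a chain -/
noncomputable def Lk (T : Fin m → Fin m → Prop) (j : Fin m × Bool → Fin m × Bool) (k : ℕ) :
    (Finset (Fin m × Bool) → ZMod 2) →ₗ[ZMod 2] ZMod 2 where
  toFun f := ∑ S : Finset (Fin m × Bool), (if good T S then f S * P T j k S else 0)
  map_add' f g := by
    rw [← Finset.sum_add_distrib]
    apply Finset.sum_congr rfl
    intro S _
    split_ifs
    · simp [add_mul]
    · simp
  map_smul' c f := by
    rw [RingHom.id_apply, smul_eq_mul, Finset.mul_sum]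
    apply Finset.sum_congr rfl
    intro S _
    split_ifs
    · simp [mul_assoc]
    · simp

open Classical in
theorem Lk_apply (k : ℕ) (f : Finset (Fin m × Bool) → ZMod 2) :
    Lk T j k f = ∑ S : Finset (Fin m × Bool), (if good T S then f S * P T j k S else 0) := rfl

/-- pure chains are killed -/
theorem Lk_pure (k : ℕ) (f : Finset (Fin m × Bool) → ZMod 2) (c : Bool)
    (hf : ∀ S, f S ≠ 0 → ∀ s ∈ S, s.2 = c) : Lk T j k f = 0 := by
  classical
  rw [Lk_apply]
  apply Finset.sum_eq_zero
  intro S _
  split_ifs with hg
  · by_cases h : f S = 0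
    · rw [h, zero_mul]
    · exfalso
      obtain ⟨x, hx⟩ := hg.1
      obtain ⟨y, hy⟩ := hg.2.1
      have h1 := hf S h _ hx
      have h2 := hf S h _ hy
      simp only at h1 h2
      rw [← h1] at h2
      simp at h2
  · rfl

/-- the functional and the boundary -/
theorem Lk_B (hj : ∀ s, j (j s) = s) (hj2 : ∀ s, (j s).2 = s.2)
    (hT : ∀ x y, T x y → T (j (x, true)).1 (j (y, false)).1)
    (hfree : ∀ S, good T S → S.image j ≠ S) (k : ℕ)
    (f : Finset (Fin m × Bool) → ZMod 2) (hf : ∀ S, f S ≠ 0 → good T S ∧ S.card = k + 3) :
    Lk T j k (B f) = Lk T j (k + 1) f + Lk T j (k + 1) (swj j f) := by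
  classical
  have h1 : Lk T j k (B f) = ∑ S : Finset (Fin m × Bool), f S * sig T j k S := by
    rw [Lk_apply]
    have e1 : ∀ S ∈ (Finset.univ : Finset (Finset (Fin m × Bool))),
        (if good T S then B f S * P T j k S else 0)
        = ∑ s ∈ Sᶜ, f (insert s S) * (if good T S then P T j k S else 0) := by
      intro S _
      rw [B_apply, ← Finset.sum_mul]
      split_ifs
      · rfl
      · rw [mul_zero]
    rw [Finset.sum_congr rfl e1]
    have e2 : ∀ S ∈ (Finset.univ : Finset (Finset (Fin m × Bool))),
        f S * sig T j k S = ∑ s ∈ S, f S * (if good T (S.erase s) then P T j k (S.erase s) else 0) := by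
      intro S _
      unfold sig
      rw [Finset.mul_sum]
    rw [Finset.sum_congr rfl e2, Finset.sum_sigma', Finset.sum_sigma']
    apply Finset.sum_nbij' (i := fun p => (⟨insert p.2 p.1, p.2⟩ : Σ _ : Finset (Fin m × Bool), Fin m × Bool))
      (j := fun p => ⟨p.1.erase p.2, p.2⟩)
    · rintro ⟨S, s⟩ h
      simp
    · rintro ⟨S, s⟩ h
      simp
    · rintro ⟨S, s⟩ h
      have hs : s ∉ S := by simpa using h
      simp [Finset.erase_insert hs]
    · rintro ⟨S, s⟩ h
      have hs : s ∈ S := by simpa using h
      simp [Finset.insert_erase hs]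
    · rintro ⟨S, s⟩ h
      have hs : s ∉ S := by simpa using h
      simp [Finset.erase_insert hs]
  have h2 : Lk T j (k + 1) (swj j f)
      = ∑ S : Finset (Fin m × Bool), (if good T S then f S * P T j (k + 1) (S.image j) else 0) := by
    rw [Lk_apply]
    apply Finset.sum_nbij' (i := fun S => S.image j) (j := fun S => S.image j)
    · intro S _; exact Finset.mem_univ _
    · intro S _; exact Finset.mem_univ _
    · intro S _; exact image_image_inv hj S
    · intro S _; exact image_image_inv hj S
    · intro S _
      rw [swj_apply, image_image_inv hj]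
      exact (if_congr (good_image_iff hj hj2 hT S) rfl rfl).symm
  rw [h1, h2, Lk_apply, ← Finset.sum_add_distrib]
  apply Finset.sum_congr rfl
  intro S _
  by_cases h : f S = 0
  · simp [h]
  · obtain ⟨hg, hc⟩ := hf S h
    rw [if_pos hg, if_pos hg, ← mul_add]
    have := P_add hj hj2 hT hfree (k + 1) S hg hc
    simp only at this
    rw [this]

/-- the functional of degree zero -/
theorem Lk_zero (hj : ∀ s, j (j s) = s) (hj2 : ∀ s, (j s).2 = s.2)
    (hT : ∀ x y, T x y → T (j (x, true)).1 (j (y, false)).1)
    (hfree : ∀ S, good T S → S.image j ≠ S)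
    (f : Finset (Fin m × Bool) → ZMod 2) (hf : ∀ S, f S ≠ 0 → good T S ∧ S.card = 2) :
    Lk T j 0 f + Lk T j 0 (swj j f) = ∑ S : Finset (Fin m × Bool), f S := by
  classical
  have h2 : Lk T j 0 (swj j f)
      = ∑ S : Finset (Fin m × Bool), (if good T S then f S * P T j 0 (S.image j) else 0) := by
    rw [Lk_apply]
    apply Finset.sum_nbij' (i := fun S => S.image j) (j := fun S => S.image j)
    · intro S _; exact Finset.mem_univ _
    · intro S _; exact Finset.mem_univ _
    · intro S _; exact image_image_inv hj S
    · intro S _; exact image_image_inv hj S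
    · intro S _
      rw [swj_apply, image_image_inv hj]
      exact (if_congr (good_image_iff hj hj2 hT S) rfl rfl).symm
  rw [h2, Lk_apply, ← Finset.sum_add_distrib]
  apply Finset.sum_congr rfl
  intro S _
  by_cases h : f S = 0
  · simp [h]
  · obtain ⟨hg, hc⟩ := hf S h
    rw [if_pos hg, if_pos hg, ← mul_add]
    have := P_add hj hj2 hT hfree 0 S hg hc
    simp only at this
    rw [this, mul_one]

end functional

end Pool.Agent.FsSym
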